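import Pool.Agent.W424.FR.Defs

/-!
FR-RL: the rectangle conclusion.
-/

set_option autoImplicit false

namespace Pool.Agent.W435.FR

open H984N MeasureTheory Filter Topology
open Pool.Agent.W424.FR

theorem D_open (R : Rect) : IsOpen R.D := by
  have h : R.D = {z : ℂ | -R.A < z.re} ∩ {z : ℂ | z.re < R.B} ∩ {z : ℂ | 0 < z.im} ∩
      {z : ℂ | z.im < R.H} := by
    ext z
    unfold Rect.D
    simp only [Set.mem_inter_iff, Set.mem_ofPred_eq]
    tauto
  rw [h]
  exact ((((isOpen_lt continuous_const Complex.continuous_re).inter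
    (isOpen_lt Complex.continuous_re continuous_const)).inter
    (isOpen_lt continuous_const Complex.continuous_im)).inter
    (isOpen_lt Complex.continuous_im continuous_const))

theorem t_RL : S_RL := by
  intro hOP hLIM hEV R hP0 δ hδ hδ0 μ hμ
  obtain ⟨C, hC, δ0, hd0, hP⟩ := hP0
  have hcf : Continuous (fun p : X => p.1) := continuous_fst
  have hlim := ProbabilityMeasure.tendsto_map_of_tendsto_of_continuous
    (fun i => R.law (δ i)) μ hμ hcf
  have key := hLIM hOP hEV R.D (D_open R) C (2/3) hC (by norm_num) (by norm_num) _ _ hlim (by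
    intro z r d ζ hr hrd hb hζ
    have hev : ∀ᶠ i in atTop, δ i < min (min r δ0) (ζ / 10) :=
      hδ0.eventually_lt_const (lt_min (lt_min hr hd0) (by positivity))
    filter_upwards [hev] with i hi
    have h1 : δ i ≤ r := hi.le.trans ((min_le_left _ _).trans (min_le_left _ _))
    have h2 : δ i ≤ δ0 := hi.le.trans ((min_le_left _ _).trans (min_le_right _ _))
    have h3 : 10 * δ i ≤ ζ := by
      have := hi.le.trans (min_le_right _ _)
      linarith
    have hm : MeasurableSet (EvH z r (d / 2) ζ) := (hOP z r (d / 2) ζ).measurableSet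
    rw [ProbabilityMeasure.toMeasure_map, Measure.map_apply hcf.measurable hm,
      R.law_apply (δ i) (hcf.measurable hm)]
    exact ENNReal.ofReal_le_ofReal (hP z r d (δ i) ζ hr hrd hb (hδ i) h1 h2 h3))
  rw [ProbabilityMeasure.toMeasure_map] at key
  have h4 := ae_of_ae_map hcf.measurable.aemeasurable key
  have h5 : ENNReal.ofReal (2 - 2 / 3) = 4 / 3 := by
    rw [show (2 - 2 / 3 : ℝ) = 4 / 3 by norm_num, ENNReal.ofReal_div_of_pos (by norm_num)]
    norm_num
  rw [h5] at h4
  exact h4

end Pool.Agent.W435.FR
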